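import Pool.Agent.Run7.h148.BC.Restr
import Pool.Agent.Run7.h148.NC.Core

/-!
# Approximate boundary control to trajectories in short time, for a weakly dense set of data

`Ω ⊆ Ω'` are bounded open sets in `ℝ³` and `Γ` is a set which does not meet `Ω'`; for example
`Γ = ∂Ω \ Ω'`, the fixed wall, and `Σ = ∂Ω ∩ Ω'`, the control zone. A controlled solution is a
strong solution of the Navier-Stokes equations in `Ω` which vanishes on `Γ`; its boundary values on
`∂Ω \ Γ` are the control. The target trajectory is any controlled solution which is the restriction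
to `Ω` of a flow in `Ω'` (strong for all times, zero boundary values on `∂Ω'`). The initial values
are restrictions to `Ω` of fields in `L²_σ(Ω')`; they may have a flux through `Σ`.
Near every such initial value, in the sense of distributions, there are initial values from which
a suitable boundary control leads to the distance at most `ε` from the trajectory in the time `ε`,
and keeps the solution there for all later times.
-/

set_option autoImplicit false

open MeasureTheory Set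
open scoped InnerProductSpace ContDiff

namespace Pool.Agent.Results.MP_8f4382_an.ShortTimeToTrajectories

open H772R2.NS.Pub Pool.Agent.W795.TQ

/-- The divergence free `H¹` fields in `Ω` which vanish on `Γ`, with their gradients: the closure in
`L²(Ω)³ × L²(Ω)^{3×3}` of the pairs `(φ, ∇φ)`, `φ` a smooth divergence free field on `ℝ³` with
compact support disjoint from `Γ`. -/
def wall (Ω Γ : Set R3) : Set (L2 Ω R3 × L2 Ω Mat) :=
  closure {p | ∃ φ : R3 → R3, ContDiff ℝ ∞ φ ∧ HasCompactSupport φ ∧ Disjoint (tsupport φ) Γ ∧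
    (∀ x, dvg φ x = 0) ∧ IsClass p.1 φ ∧ IsClass p.2 (jac φ)}

/-- `v` is a controlled solution on `[0,T]`, with `v' = ∂_t v`, `G = ∇v`, `G' = ∇∂_t v`: a strong
solution in `Ω` of the Navier-Stokes equations with viscosity `ν` and without force which vanishes
on `Γ`. There is no condition on the rest of the boundary. -/
structure IsControlled (Ω Γ : Set R3) (ν T : ℝ) (v v' : ℝ → L2 Ω R3) (G G' : ℝ → L2 Ω Mat) :
    Prop where
  grad : ∀ t ∈ Icc 0 T, (v t, G t) ∈ wall Ω Γ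
  gradDeriv : ∀ᵐ t ∂(volume.restrict (Ioc 0 T)), (v' t, G' t) ∈ wall Ω Γ
  hv : IsH1 T v v'
  hG : IsH1 T G G'
  bdd : ∃ M, ∀ᵐ t ∂(volume.restrict (Ioc 0 T)), ‖v' t‖ ≤ M
  eqn : ∀ φ, IsTest Ω φ → ∀ t ∈ Icc 0 T,
    (∫ x in Ω, ⟪(v t).fn x, φ x⟫_ℝ) - (∫ x in Ω, ⟪(v 0).fn x, φ x⟫_ℝ)
      = ∫ s in (0 : ℝ)..t, rhs ν (v s) (G s) 0 φ

/-- `Ω ⊆ Ω'`, `Ω'` bounded and open, `Γ` disjoint from `Ω'`, `ν > 0`, `U` a flow in `Ω'` (no force,
zero boundary values) which is a strong solution on every `[0,T]`. The restriction `V` of `U` to `Ω`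
is a controlled solution on every `[0,T]`. For all `u₀ ∈ L²_σ(Ω')`, finitely many smooth fields
`φ_i` with compact support in `Ω'` and `ε > 0` there is a divergence free test field `v₀` in `Ω'`
with `|∫ v₀·φ_i - ∫ u₀·φ_i| ≤ ε` and a controlled solution `v` with the initial value `v₀` in `Ω`
such that `‖v(t) - V(t)‖ ≤ ε` for all `t ≥ ε`. Moreover, for every `S ≥ ε` there is `δ > 0` such that
`‖w(t) - V(t)‖_{L²(Ω)} ≤ ε` for `ε ≤ t ≤ S` and for every Leray-Hopf solution `w` on `[0,S]` in `Ω'`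
(no force, zero boundary values) with `‖w(0) - v₀‖_{L²(Ω')} < δ`. -/
theorem result (Ω Ω' Γ : Set R3) (hΩ' : IsOpen Ω') (hb : Bornology.IsBounded Ω') (h : Ω ⊆ Ω')
    (hΓ : Disjoint Ω' Γ) (ν : ℝ) (hν : 0 < ν) (U U' : ℝ → L2 Ω' R3) (D D' : ℝ → L2 Ω' Mat)
    (hU : ∀ T, 0 < T → IsStrong Ω' ν T (fun _ => 0) U U' D D') :
    ∃ (V V' : ℝ → L2 Ω R3) (E E' : ℝ → L2 Ω Mat), (∀ t, IsClass (V t) (U t).fn) ∧
      (∀ T, 0 < T → IsControlled Ω Γ ν T V V' E E') ∧
      ∀ u₀ ∈ L2sigma Ω', ∀ (n : ℕ) (φ : Fin n → R3 → R3),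
        (∀ i, ContDiff ℝ ∞ (φ i) ∧ HasCompactSupport (φ i) ∧ tsupport (φ i) ⊆ Ω') →
        ∀ ε : ℝ, 0 < ε →
        ∃ (v₀ : R3 → R3) (c₀ : L2 Ω' R3) (v v' : ℝ → L2 Ω R3) (G G' : ℝ → L2 Ω Mat),
          IsTest Ω' v₀ ∧ IsClass c₀ v₀ ∧ IsClass (v 0) v₀ ∧
          (∀ i, |(∫ x in Ω', ⟪v₀ x, φ i x⟫_ℝ) - ∫ x in Ω', ⟪u₀.fn x, φ i x⟫_ℝ| ≤ ε) ∧
          (∀ T, 0 < T → IsControlled Ω Γ ν T v v' G G') ∧
          (∀ t, ε ≤ t → ‖v t - V t‖ ≤ ε) ∧
          ∀ S, ε ≤ S → ∃ δ : ℝ, 0 < δ ∧ ∀ (w : ℝ → L2 Ω' R3) (A : ℝ → L2 Ω' Mat),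
            IsLerayHopf Ω' ν S (fun _ => 0) w A → ‖w 0 - c₀‖ < δ → ∀ t ∈ Icc ε S,
              ∀ x : L2 Ω R3, IsClass x (w t).fn → ‖x - V t‖ ≤ ε := by
  obtain ⟨r, hr, hr1⟩ := Run7.h148.BC.exists_restr h R3
  obtain ⟨s, hs, hs1⟩ := Run7.h148.BC.exists_restr h Mat
  have := Run7.h148.BC.complete_v Ω
  have := Run7.h148.BC.complete_v Ω'
  have := Run7.h148.BC.complete_m Ω
  have := Run7.h148.BC.complete_m Ω'
  have key : ∀ (u u' : ℝ → L2 Ω' R3) (A A' : ℝ → L2 Ω' Mat),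
      (∀ T, 0 < T → IsStrong Ω' ν T (fun _ => 0) u u' A A') →
      ∀ T, 0 < T → IsControlled Ω Γ ν T (fun t => r (u t)) (fun t => r (u' t)) (fun t => s (A t))
        (fun t => s (A' t)) := by
    intro u u' A A' hu T hT
    have S := hu T hT
    refine ⟨fun t ht => Run7.h148.BC.grad_restr h hΓ hr hs (S.grad t ht), ?_,
      Run7.h148.BC.h1_restr r S.hu, Run7.h148.BC.h1_restr s S.hG, ?_, ?_⟩
    · filter_upwards [S.gradDeriv] with t ht
      exact Run7.h148.BC.grad_restr h hΓ hr hs ht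
    · obtain ⟨M, hM⟩ := S.bdd
      refine ⟨M, ?_⟩
      filter_upwards [hM] with t ht
      exact (hr1 _).trans ht
    · intro φ hφ t ht
      obtain ⟨e1, e2⟩ := Run7.h148.BC.eqn_restr (Run7.h148.BC.meas_open hΩ') h hr hs hφ
      have hφ' : IsTest Ω' φ := ⟨hφ.smooth, hφ.compact, hφ.supp.trans h, hφ.divfree⟩
      have h1 := S.eqn φ hφ' t ht
      rw [e1, e1]
      simp only [e2]
      exact h1
  refine ⟨fun t => r (U t), fun t => r (U' t), fun t => s (D t), fun t => s (D' t),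
    fun t => hr (U t), key U U' D D' hU, fun u₀ hu₀ n φ hφ ε hε => ?_⟩
  obtain ⟨v₀, u, u', A, A', h1, h2, h3, h4, h5⟩ :=
    Run7.h744.DD.t_all Ω' hΩ' hb ν hν U U' D D' hU u₀ hu₀ n φ hφ (ε / 2) (by positivity)
  have h6 : ∀ t, ε ≤ t → ‖u t - U t‖ ≤ ε / 2 := fun t ht => (h5 t (by linarith)).1
  refine ⟨v₀, u 0, fun t => r (u t), fun t => r (u' t), fun t => s (A t), fun t => s (A' t), h1, h2,
    Run7.h148.BC.class_of h (hr _) h2, fun i => (h4 i).trans (by linarith), key u u' A A' h3,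
    fun t ht => ?_, fun S hS => ?_⟩
  · rw [← map_sub]
    exact (hr1 _).trans ((h6 t ht).trans (by linarith))
  · have hS0 : 0 < S := hε.trans_le hS
    obtain ⟨δ, hδ, hst⟩ := Run7.h148.NC.stab_pub hΩ' hb hν hS0 (h3 S hS0) (ε := ε / 2) (by positivity)
    refine ⟨δ, hδ, fun w B hw hd t ht x hx => ?_⟩
    have e1 : x = r (w t) := Run7.h148.BC.class_unique hx (hr _)
    have e2 := hst w B hw hd t ⟨hε.le.trans ht.1, ht.2⟩
    rw [e1, ← map_sub]
    refine (hr1 _).trans ?_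
    calc ‖w t - U t‖ = ‖(w t - u t) + (u t - U t)‖ := by rw [sub_add_sub_cancel]
      _ ≤ ‖w t - u t‖ + ‖u t - U t‖ := norm_add_le _ _
      _ ≤ ε := by linarith [h6 t ht.1]

end Pool.Agent.Results.MP_8f4382_an.ShortTimeToTrajectories
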